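import Mathlib

/-! MP_a9ea17_co: reduction of the covering statement to integer sequences. -/

namespace Pool.Agent.X239.CS

/-- `x₀, …, x_{k-1}` satisfy (i) and (ii) of the problem for `t = 4k+1`: all `x_i` are nonzero, the
nonzero residues are exactly the covering residues `±x_i`, `±(x_i + x_{(i+1) mod k})`, and every
integer representative of the sum of the `x_i` is coprime to `t`. -/
def Solves (k : ℕ) (x : ℕ → ZMod (4 * k + 1)) : Prop :=
  (∀ i < k, x i ≠ 0) ∧
  {z : ZMod (4 * k + 1) | z ≠ 0} =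
    {z | ∃ i < k, z = x i ∨ z = -x i ∨ z = x i + x ((i + 1) % k) ∨
      z = -(x i + x ((i + 1) % k))} ∧
  ∀ s : ℤ, (s : ZMod (4 * k + 1)) = ∑ i ∈ Finset.range k, x i → Int.gcd s (4 * k + 1 : ℕ) = 1

/-- Every `r` with `1 ≤ r ≤ 2k` is, up to sign and modulo `4k+1`, a term or a sum of two cyclically
consecutive terms. -/
def Covers (k : ℕ) (f : ℕ → ℤ) : Prop :=
  ∀ r : ℤ, 1 ≤ r → r ≤ 2 * k → ∃ q : ℤ,
    (∃ i, i < k ∧ (r = f i + q * (4 * k + 1) ∨ r = -f i + q * (4 * k + 1))) ∨
    (∃ i, i + 1 < k ∧ (r = f i + f (i + 1) + q * (4 * k + 1) ∨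
      r = -(f i + f (i + 1)) + q * (4 * k + 1))) ∨
    (r = f (k - 1) + f 0 + q * (4 * k + 1) ∨ r = -(f (k - 1) + f 0) + q * (4 * k + 1))

theorem solves_of_covers {k : ℕ} (hk : 2 < k) {f : ℕ → ℤ} (hc : Covers k f)
    (hg : IsCoprime (∑ i ∈ Finset.range k, f i) ((4 * k + 1 : ℕ) : ℤ)) :
    Solves k (fun i => ((f i : ℤ) : ZMod (4 * k + 1))) := by
  classical
  set t := 4 * k + 1 with ht
  haveI : NeZero t := ⟨by omega⟩
  set x : ℕ → ZMod t := fun i => ((f i : ℤ) : ZMod t) with hx
  have htz : ((4 * (k : ℤ) + 1 : ℤ) : ZMod t) = 0 := by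
    have : ((t : ℕ) : ZMod t) = 0 := ZMod.natCast_self t
    rw [ht] at this ⊢
    push_cast at this ⊢
    exact this
  -- the covering residues
  have key : ∀ r : ℤ, 1 ≤ r → r ≤ 2 * k → ∃ i < k, (r : ZMod t) = x i ∨ (r : ZMod t) = -x i ∨
      (r : ZMod t) = x i + x ((i + 1) % k) ∨ (r : ZMod t) = -(x i + x ((i + 1) % k)) := by
    intro r h1 h2
    obtain ⟨q, h⟩ := hc r h1 h2
    rcases h with ⟨i, hi, h⟩ | ⟨i, hi, h⟩ | h
    · refine ⟨i, hi, ?_⟩
      rcases h with h | h
      · left
        rw [h]; push_cast; rw [show (4 * (k : ZMod t) + 1) = 0 by exact_mod_cast htz]; simp [hx]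
      · right; left
        rw [h]; push_cast; rw [show (4 * (k : ZMod t) + 1) = 0 by exact_mod_cast htz]; simp [hx]
    · refine ⟨i, by omega, ?_⟩
      rw [Nat.mod_eq_of_lt hi]
      rcases h with h | h
      · right; right; left
        rw [h]; push_cast; rw [show (4 * (k : ZMod t) + 1) = 0 by exact_mod_cast htz]; simp [hx]
      · right; right; right
        rw [h]; push_cast; rw [show (4 * (k : ZMod t) + 1) = 0 by exact_mod_cast htz]; simp [hx]
    · refine ⟨k - 1, by omega, ?_⟩
      rw [show k - 1 + 1 = k by omega, Nat.mod_self]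
      rcases h with h | h
      · right; right; left
        rw [h]; push_cast; rw [show (4 * (k : ZMod t) + 1) = 0 by exact_mod_cast htz]; simp [hx]
      · right; right; right
        rw [h]; push_cast; rw [show (4 * (k : ZMod t) + 1) = 0 by exact_mod_cast htz]; simp [hx]
  have key2 : ∀ z : ZMod t, z ≠ 0 → ∃ i < k, z = x i ∨ z = -x i ∨ z = x i + x ((i + 1) % k) ∨
      z = -(x i + x ((i + 1) % k)) := by
    intro z hz
    have hv : z.val ≠ 0 := by rwa [Ne, ZMod.val_eq_zero]
    have hlt : z.val < t := ZMod.val_lt z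
    by_cases hle : z.val ≤ 2 * k
    · obtain ⟨i, hi, h⟩ := key (z.val : ℤ) (by omega) (by exact_mod_cast hle)
      have e : ((z.val : ℤ) : ZMod t) = z := by simp
      rw [e] at h
      exact ⟨i, hi, h⟩
    · obtain ⟨i, hi, h⟩ := key ((t : ℤ) - z.val) (by omega) (by omega)
      have e : (((t : ℤ) - (z.val : ℤ) : ℤ) : ZMod t) = -z := by
        push_cast
        simp
      rw [e] at h
      refine ⟨i, hi, ?_⟩
      rcases h with h | h | h | h
      · right; left; rw [← h]; simp
      · left; exact neg_inj.mp h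
      · right; right; right; rw [← h]; simp
      · right; right; left; exact neg_inj.mp h
  -- counting
  let g : ℕ × Fin 4 → ZMod t := fun p =>
    if p.2 = 0 then x p.1 else if p.2 = 1 then -x p.1 else
      if p.2 = 2 then x p.1 + x ((p.1 + 1) % k) else -(x p.1 + x ((p.1 + 1) % k))
  let U : Finset (ZMod t) := (Finset.range k ×ˢ (Finset.univ : Finset (Fin 4))).image g
  let T : Finset (ZMod t) := Finset.univ.erase 0
  have hTU : T ⊆ U := by
    intro z hz
    have hz0 : z ≠ 0 := (Finset.mem_erase.mp hz).1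
    obtain ⟨i, hi, h⟩ := key2 z hz0
    rcases h with h | h | h | h
    · exact Finset.mem_image.mpr ⟨(i, 0), by simp [hi], by simp [g, h]⟩
    · exact Finset.mem_image.mpr ⟨(i, 1), by simp [hi], by simp [g, h]⟩
    · exact Finset.mem_image.mpr ⟨(i, 2), by simp [hi], by simp [g, h]⟩
    · exact Finset.mem_image.mpr ⟨(i, 3), by simp [hi], by simp [g, h]⟩
  have hT : T.card = 4 * k := by
    rw [Finset.card_erase_of_mem (Finset.mem_univ _), Finset.card_univ, ZMod.card]
    omega
  have hU : U.card ≤ 4 * k := by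
    refine Finset.card_image_le.trans ?_
    rw [Finset.card_product, Finset.card_range, Finset.card_univ, Fintype.card_fin]
    omega
  have hEq : T = U := Finset.eq_of_subset_of_card_le hTU (by omega)
  have hne : ∀ i < k, ∀ j : Fin 4, g (i, j) ≠ 0 := by
    intro i hi j h0
    have : g (i, j) ∈ U := Finset.mem_image.mpr ⟨(i, j), by simp [hi], rfl⟩
    rw [← hEq] at this
    exact (Finset.mem_erase.mp this).1 h0
  refine ⟨?_, ?_, ?_⟩
  · intro i hi
    have := hne i hi 0
    simpa [g] using this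
  · ext z
    constructor
    · intro hz
      exact key2 z hz
    · rintro ⟨i, hi, h⟩
      rcases h with h | h | h | h
      · have := hne i hi 0
        rw [h]; simpa [g] using this
      · have := hne i hi 1
        rw [h]; simpa [g] using this
      · have := hne i hi 2
        rw [h]; simpa [g] using this
      · have := hne i hi 3
        rw [h]; simpa [g] using this
  · intro s hs
    have h1 : ((s - ∑ i ∈ Finset.range k, f i : ℤ) : ZMod t) = 0 := by
      push_cast
      rw [hs]
      simp [hx]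
    obtain ⟨u, hu⟩ := (ZMod.intCast_zmod_eq_zero_iff_dvd _ t).mp h1
    have h2 : s = ∑ i ∈ Finset.range k, f i + (t : ℤ) * u := by linarith
    rw [← Int.isCoprime_iff_gcd_eq_one, h2]
    exact IsCoprime.add_mul_left_left hg u

end Pool.Agent.X239.CS
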