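import Pool.Agent.X239.CS.Core

/-! MP_a9ea17_co: the explicit sequences. -/

namespace Pool.Agent.X239.CS

open Finset

/-! ### `k = 2n+7` -/

/-- The sequence for `k = 2n+7`. -/
def fO (n : ℕ) (i : ℕ) : ℤ :=
  if i < 2 * n + 1 then (if i % 2 = 0 then 3 * n + 13 + (i / 2 : ℕ) else -3 * n - 9 + (i / 2 : ℕ))
  else if i = 2 * n + 1 then 2 else if i = 2 * n + 2 then 2 * n + 5
  else if i = 2 * n + 3 then -2 * n - 8 else if i = 2 * n + 4 then -1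
  else if i = 2 * n + 5 then 3 * n + 11 else 3 * n + 12

theorem fO_even {n j : ℕ} (h : j ≤ n) : fO n (2 * j) = 3 * n + 13 + j := by
  unfold fO
  rw [if_pos (by omega), if_pos (by omega)]
  have : 2 * j / 2 = j := by omega
  rw [this]

theorem fO_odd {n j : ℕ} (h : j < n) : fO n (2 * j + 1) = -3 * n - 9 + j := by
  unfold fO
  rw [if_pos (by omega), if_neg (by omega)]
  have : (2 * j + 1) / 2 = j := by omega
  rw [this]

theorem fO_1 (n : ℕ) : fO n (2 * n + 1) = 2 := by simp [fO]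
theorem fO_2 (n : ℕ) : fO n (2 * n + 2) = 2 * n + 5 := by simp [fO]
theorem fO_3 (n : ℕ) : fO n (2 * n + 3) = -2 * n - 8 := by simp [fO]
theorem fO_4 (n : ℕ) : fO n (2 * n + 4) = -1 := by simp [fO]
theorem fO_5 (n : ℕ) : fO n (2 * n + 5) = 3 * n + 11 := by simp [fO]
theorem fO_6 (n : ℕ) : fO n (2 * n + 6) = 3 * n + 12 := by simp [fO]
theorem fO_0 (n : ℕ) : fO n 0 = 3 * n + 13 := by simpa using fO_even (n := n) (j := 0) (by omega)
theorem fO_m (n : ℕ) : fO n (2 * n) = 4 * n + 13 := by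
  rw [fO_even le_rfl]; ring

theorem sumO (n : ℕ) : ∑ i ∈ range (2 * n + 7), fO n i = (n : ℤ) ^ 2 + 13 * n + 34 := by
  have h : ∀ j : ℕ, j ≤ n → ∑ i ∈ range (2 * j + 1), fO n i =
      ((j : ℤ) + 1) * (3 * n + 13) + j * (-3 * n - 9) + j ^ 2 := by
    intro j
    induction j with
    | zero => intro _; simp [fO_0]
    | succ j ih =>
      intro hj
      rw [show 2 * (j + 1) + 1 = 2 * j + 1 + 1 + 1 by ring, sum_range_succ, sum_range_succ,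
        ih (by omega), fO_odd (by omega), show 2 * j + 1 + 1 = 2 * (j + 1) by ring,
        fO_even (by omega)]
      push_cast
      ring
  rw [show 2 * n + 7 = 2 * n + 1 + 1 + 1 + 1 + 1 + 1 + 1 by ring, sum_range_succ, sum_range_succ,
    sum_range_succ, sum_range_succ, sum_range_succ, sum_range_succ, h n le_rfl]
  rw [fO_1, fO_2, fO_3, fO_4, fO_5, fO_6]
  ring

theorem copO (n : ℕ) :
    IsCoprime (∑ i ∈ range (2 * n + 7), fO n i) ((4 * (2 * n + 7) + 1 : ℕ) : ℤ) := by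
  rw [sumO]
  refine ⟨64, -(8 * n + 75), ?_⟩
  push_cast
  ring

theorem coverO (n : ℕ) : Covers (2 * n + 7) (fO n) := by
  intro r h1 h2
  push_cast at h2 ⊢
  -- small exceptional values
  by_cases e1 : r = 1
  · exact ⟨0, Or.inl ⟨2 * n + 4, by omega, Or.inr (by rw [fO_4]; omega)⟩⟩
  by_cases e2 : r = 2
  · exact ⟨0, Or.inl ⟨2 * n + 1, by omega, Or.inl (by rw [fO_1]; omega)⟩⟩
  by_cases e3 : r = 3
  · refine ⟨0, Or.inr (Or.inl ⟨2 * n + 2, by omega, Or.inr ?_⟩)⟩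
    rw [show 2 * n + 2 + 1 = 2 * n + 3 by ring, fO_2, fO_3]; omega
  -- the sums of the regular part
  by_cases e4 : r ≤ 2 * n + 3
  · obtain ⟨s, hs⟩ : ∃ s : ℕ, r = s + 4 := ⟨(r - 4).toNat, by omega⟩
    refine ⟨0, Or.inr (Or.inl ⟨s, by omega, Or.inl ?_⟩)⟩
    rcases Nat.even_or_odd' s with ⟨j, hj | hj⟩
    · rw [hj, fO_even (by omega), fO_odd (by omega)]; omega
    · rw [hj, fO_odd (by omega), show 2 * j + 1 + 1 = 2 * (j + 1) by ring, fO_even (by omega)]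
      push_cast; omega
  by_cases e5 : r = 2 * n + 4
  · refine ⟨1, Or.inr (Or.inr (Or.inr ?_))⟩
    change r = -(fO n (2 * n + 6) + fO n 0) + _; rw [fO_6, fO_0]; omega
  by_cases e6 : r = 2 * n + 5
  · exact ⟨0, Or.inl ⟨2 * n + 2, by omega, Or.inl (by rw [fO_2]; omega)⟩⟩
  by_cases e7 : r = 2 * n + 6
  · refine ⟨1, Or.inr (Or.inl ⟨2 * n + 5, by omega, Or.inr ?_⟩)⟩
    rw [show 2 * n + 5 + 1 = 2 * n + 6 by ring, fO_5, fO_6]; omega
  by_cases e8 : r = 2 * n + 7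
  · refine ⟨0, Or.inr (Or.inl ⟨2 * n + 1, by omega, Or.inl ?_⟩)⟩
    rw [show 2 * n + 1 + 1 = 2 * n + 2 by ring, fO_1, fO_2]; omega
  by_cases e9 : r = 2 * n + 8
  · exact ⟨0, Or.inl ⟨2 * n + 3, by omega, Or.inr (by rw [fO_3]; omega)⟩⟩
  by_cases e10 : r = 2 * n + 9
  · refine ⟨0, Or.inr (Or.inl ⟨2 * n + 3, by omega, Or.inr ?_⟩)⟩
    rw [show 2 * n + 3 + 1 = 2 * n + 4 by ring, fO_3, fO_4]; omega
  by_cases e11 : r ≤ 3 * n + 9
  · obtain ⟨j, hj⟩ : ∃ j : ℕ, r = 3 * n + 9 - j := ⟨(3 * n + 9 - r).toNat, by omega⟩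
    refine ⟨0, Or.inl ⟨2 * j + 1, by omega, Or.inr ?_⟩⟩
    rw [fO_odd (by omega)]; omega
  by_cases e12 : r = 3 * n + 10
  · refine ⟨0, Or.inr (Or.inl ⟨2 * n + 4, by omega, Or.inl ?_⟩)⟩
    rw [show 2 * n + 4 + 1 = 2 * n + 5 by ring, fO_4, fO_5]; omega
  by_cases e13 : r = 3 * n + 11
  · exact ⟨0, Or.inl ⟨2 * n + 5, by omega, Or.inl (by rw [fO_5]; omega)⟩⟩
  by_cases e14 : r = 3 * n + 12
  · exact ⟨0, Or.inl ⟨2 * n + 6, by omega, Or.inl (by rw [fO_6]; omega)⟩⟩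
  by_cases e15 : r ≤ 4 * n + 13
  · obtain ⟨j, hj⟩ : ∃ j : ℕ, r = 3 * n + 13 + j := ⟨(r - (3 * n + 13)).toNat, by omega⟩
    refine ⟨0, Or.inl ⟨2 * j, by omega, Or.inl ?_⟩⟩
    rw [fO_even (by omega)]; omega
  · refine ⟨1, Or.inr (Or.inl ⟨2 * n, by omega, Or.inr ?_⟩)⟩
    rw [fO_m, fO_1]; omega

/-! ### `k = 2n+6`, `n ≥ 1` -/

/-- The sequence for `k = 2n+6`, `n ≥ 1`. -/
def fE (n : ℕ) (i : ℕ) : ℤ :=
  if i < 2 * n then (if i % 2 = 0 then 3 * n + 11 + (i / 2 : ℕ) else -3 * n - 8 + (i / 2 : ℕ))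
  else if i = 2 * n then 2 else if i = 2 * n + 1 then 2 * n + 2
  else if i = 2 * n + 2 then 1 else if i = 2 * n + 3 then 4 * n + 11
  else if i = 2 * n + 4 then 2 * n + 6 else 3 * n + 9

theorem fE_even {n j : ℕ} (h : j < n) : fE n (2 * j) = 3 * n + 11 + j := by
  unfold fE
  rw [if_pos (by omega), if_pos (by omega)]
  have : 2 * j / 2 = j := by omega
  rw [this]

theorem fE_odd {n j : ℕ} (h : j < n) : fE n (2 * j + 1) = -3 * n - 8 + j := by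
  unfold fE
  rw [if_pos (by omega), if_neg (by omega)]
  have : (2 * j + 1) / 2 = j := by omega
  rw [this]

theorem fE_1 (n : ℕ) : fE n (2 * n) = 2 := by simp [fE]
theorem fE_2 (n : ℕ) : fE n (2 * n + 1) = 2 * n + 2 := by simp [fE]
theorem fE_3 (n : ℕ) : fE n (2 * n + 2) = 1 := by simp [fE]
theorem fE_4 (n : ℕ) : fE n (2 * n + 3) = 4 * n + 11 := by simp [fE]
theorem fE_5 (n : ℕ) : fE n (2 * n + 4) = 2 * n + 6 := by simp [fE]
theorem fE_6 (n : ℕ) : fE n (2 * n + 5) = 3 * n + 9 := by simp [fE]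

theorem sumE (n : ℕ) : ∑ i ∈ range (2 * n + 6), fE n i = (n : ℤ) ^ 2 + 13 * n + 31 := by
  have h : ∀ j : ℕ, j ≤ n → ∑ i ∈ range (2 * j), fE n i = 3 * (j : ℤ) + (j : ℤ) * (j - 1) := by
    intro j
    induction j with
    | zero => intro _; simp
    | succ j ih =>
      intro hj
      rw [show 2 * (j + 1) = 2 * j + 1 + 1 by ring, sum_range_succ, sum_range_succ,
        ih (by omega), fE_odd (by omega), fE_even (by omega)]
      push_cast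
      ring
  rw [show 2 * n + 6 = 2 * n + 1 + 1 + 1 + 1 + 1 + 1 by ring, sum_range_succ, sum_range_succ,
    sum_range_succ, sum_range_succ, sum_range_succ, sum_range_succ, h n le_rfl]
  rw [fE_1, fE_2, fE_3, fE_4, fE_5, fE_6]
  ring

theorem copE (n : ℕ) (h3 : n % 3 ≠ 1) :
    IsCoprime (∑ i ∈ range (2 * n + 6), fE n i) ((4 * (2 * n + 6) + 1 : ℕ) : ℤ) := by
  rw [sumE, Int.isCoprime_iff_gcd_eq_one]
  set S : ℤ := (n : ℤ) ^ 2 + 13 * n + 31 with hS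
  by_contra hne
  obtain ⟨p, hp, hpd⟩ := Nat.exists_prime_and_dvd hne
  have h1 : (p : ℤ) ∣ S := (Int.natCast_dvd_natCast.mpr hpd).trans (Int.gcd_dvd_left _ _)
  have h2 : (p : ℤ) ∣ ((4 * (2 * n + 6) + 1 : ℕ) : ℤ) :=
    (Int.natCast_dvd_natCast.mpr hpd).trans (Int.gcd_dvd_right _ _)
  have h9 : (p : ℤ) ∣ 3 ^ 2 := by
    have : (3 : ℤ) ^ 2 = 64 * S - ((4 * (2 * n + 6) + 1 : ℕ) : ℤ) * (8 * n + 79) := by
      rw [hS]; push_cast; ring
    rw [this]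
    exact dvd_sub (Dvd.dvd.mul_left h1 _) (Dvd.dvd.mul_right h2 _)
  have hp3 : p ∣ 3 := by
    have : (p : ℤ) ∣ 3 := (Nat.prime_iff_prime_int.mp hp).dvd_of_dvd_pow h9
    exact_mod_cast this
  have hp3' : p = 3 := (Nat.prime_dvd_prime_iff_eq hp Nat.prime_three).mp hp3
  subst hp3'
  have h4 : 3 ∣ 4 * (2 * n + 6) + 1 := by exact_mod_cast h2
  omega

theorem coverE (n : ℕ) (hn : 1 ≤ n) : Covers (2 * n + 6) (fE n) := by
  have f0 : fE n 0 = 3 * n + 11 := by simpa using fE_even (n := n) (j := 0) (by omega)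
  have fl : fE n (2 * n - 1) = -2 * n - 9 := by
    have := fE_odd (n := n) (j := n - 1) (by omega)
    rw [show 2 * (n - 1) + 1 = 2 * n - 1 by omega] at this
    rw [this]; push_cast [Nat.cast_sub hn]; ring
  intro r h1 h2
  push_cast at h2 ⊢
  by_cases e1 : r = 1
  · exact ⟨0, Or.inl ⟨2 * n + 2, by omega, Or.inl (by rw [fE_3]; omega)⟩⟩
  by_cases e2 : r = 2
  · exact ⟨0, Or.inl ⟨2 * n, by omega, Or.inl (by rw [fE_1]; omega)⟩⟩
  by_cases e4 : r ≤ 2 * n + 1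
  · obtain ⟨s, hs⟩ : ∃ s : ℕ, r = s + 3 := ⟨(r - 3).toNat, by omega⟩
    refine ⟨0, Or.inr (Or.inl ⟨s, by omega, Or.inl ?_⟩)⟩
    rcases Nat.even_or_odd' s with ⟨j, hj | hj⟩
    · rw [hj, fE_even (by omega), fE_odd (by omega)]; omega
    · rw [hj, fE_odd (by omega), show 2 * j + 1 + 1 = 2 * (j + 1) by ring, fE_even (by omega)]
      push_cast; omega
  by_cases e5 : r = 2 * n + 2
  · exact ⟨0, Or.inl ⟨2 * n + 1, by omega, Or.inl (by rw [fE_2]; omega)⟩⟩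
  by_cases e6 : r = 2 * n + 3
  · refine ⟨0, Or.inr (Or.inl ⟨2 * n + 1, by omega, Or.inl ?_⟩)⟩
    rw [show 2 * n + 1 + 1 = 2 * n + 2 by ring, fE_2, fE_3]; omega
  by_cases e7 : r = 2 * n + 4
  · refine ⟨0, Or.inr (Or.inl ⟨2 * n, by omega, Or.inl ?_⟩)⟩
    rw [fE_1, fE_2]; omega
  by_cases e8 : r = 2 * n + 5
  · refine ⟨1, Or.inr (Or.inr (Or.inr ?_))⟩
    change r = -(fE n (2 * n + 5) + fE n 0) + _; rw [fE_6, f0]; omega
  by_cases e9 : r = 2 * n + 6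
  · exact ⟨0, Or.inl ⟨2 * n + 4, by omega, Or.inl (by rw [fE_5]; omega)⟩⟩
  by_cases e10 : r = 2 * n + 7
  · refine ⟨0, Or.inr (Or.inl ⟨2 * n - 1, by omega, Or.inr ?_⟩)⟩
    rw [show 2 * n - 1 + 1 = 2 * n by omega, fl, fE_1]; omega
  by_cases e11 : r = 2 * n + 8
  · refine ⟨1, Or.inr (Or.inl ⟨2 * n + 3, by omega, Or.inr ?_⟩)⟩
    rw [show 2 * n + 3 + 1 = 2 * n + 4 by ring, fE_4, fE_5]; omega
  by_cases e12 : r ≤ 3 * n + 8
  · obtain ⟨j, hj⟩ : ∃ j : ℕ, r = 3 * n + 8 - j := ⟨(3 * n + 8 - r).toNat, by omega⟩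
    refine ⟨0, Or.inl ⟨2 * j + 1, by omega, Or.inr ?_⟩⟩
    rw [fE_odd (by omega)]; omega
  by_cases e13 : r = 3 * n + 9
  · exact ⟨0, Or.inl ⟨2 * n + 5, by omega, Or.inl (by rw [fE_6]; omega)⟩⟩
  by_cases e14 : r = 3 * n + 10
  · refine ⟨1, Or.inr (Or.inl ⟨2 * n + 4, by omega, Or.inr ?_⟩)⟩
    rw [show 2 * n + 4 + 1 = 2 * n + 5 by ring, fE_5, fE_6]; omega
  by_cases e15 : r ≤ 4 * n + 10
  · obtain ⟨j, hj⟩ : ∃ j : ℕ, r = 3 * n + 11 + j := ⟨(r - (3 * n + 11)).toNat, by omega⟩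
    refine ⟨0, Or.inl ⟨2 * j, by omega, Or.inl ?_⟩⟩
    rw [fE_even (by omega)]; omega
  by_cases e16 : r = 4 * n + 11
  · exact ⟨0, Or.inl ⟨2 * n + 3, by omega, Or.inl (by rw [fE_4]; omega)⟩⟩
  · refine ⟨0, Or.inr (Or.inl ⟨2 * n + 2, by omega, Or.inl ?_⟩)⟩
    rw [show 2 * n + 2 + 1 = 2 * n + 3 by ring, fE_3, fE_4]; omega

/-! ### `k = 3n+5` -/

/-- The sequence for `k = 3n+5`. -/
def fT (n : ℕ) (i : ℕ) : ℤ :=
  if i < 3 * n + 2 then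
    (if i % 3 = 0 then 3 * n + 5 + (i / 3 : ℕ) else
      if i % 3 = 1 then -5 * n - 8 + (i / 3 : ℕ) else -2 - 2 * (i / 3 : ℕ))
  else if i = 3 * n + 2 then 6 * n + 10 else if i = 3 * n + 3 then -4 * n - 6 else 4 * n + 7

theorem fT_0 {n j : ℕ} (h : j ≤ n) : fT n (3 * j) = 3 * n + 5 + j := by
  unfold fT
  rw [if_pos (by omega), if_pos (by omega)]
  have : 3 * j / 3 = j := by omega
  rw [this]

theorem fT_1 {n j : ℕ} (h : j ≤ n) : fT n (3 * j + 1) = -5 * n - 8 + j := by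
  unfold fT
  rw [if_pos (by omega), if_neg (by omega), if_pos (by omega)]
  have : (3 * j + 1) / 3 = j := by omega
  rw [this]

theorem fT_2 {n j : ℕ} (h : j < n) : fT n (3 * j + 2) = -2 - 2 * j := by
  unfold fT
  rw [if_pos (by omega), if_neg (by omega), if_neg (by omega)]
  have : (3 * j + 2) / 3 = j := by omega
  rw [this]

theorem fT_a (n : ℕ) : fT n (3 * n + 2) = 6 * n + 10 := by simp [fT]
theorem fT_b (n : ℕ) : fT n (3 * n + 3) = -4 * n - 6 := by simp [fT]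
theorem fT_c (n : ℕ) : fT n (3 * n + 4) = 4 * n + 7 := by simp [fT]

theorem sumT (n : ℕ) : ∑ i ∈ range (3 * n + 5), fT n i = -2 * (n : ℤ) ^ 2 + n + 8 := by
  have h : ∀ j : ℕ, j ≤ n → ∑ i ∈ range (3 * j + 2), fT n i =
      ((j : ℤ) + 1) * (-2 * n - 3) + (j : ℤ) * (j + 1) - (j : ℤ) * (j + 1) := by
    intro j
    induction j with
    | zero =>
      intro _
      rw [show 3 * 0 + 2 = 1 + 1 by norm_num, sum_range_succ, sum_range_one]
      have a := fT_0 (n := n) (j := 0) (by omega)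
      have b := fT_1 (n := n) (j := 0) (by omega)
      simp only [mul_zero, zero_add] at a b
      rw [a, b]; push_cast; ring
    | succ j ih =>
      intro hj
      rw [show 3 * (j + 1) + 2 = 3 * j + 2 + 1 + 1 + 1 by ring, sum_range_succ, sum_range_succ,
        sum_range_succ, ih (by omega), fT_2 (by omega), show 3 * j + 2 + 1 = 3 * (j + 1) by ring,
        fT_0 (by omega), show fT n (3 * j + 4) = fT n (3 * (j + 1) + 1) by ring_nf,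
        fT_1 (by omega)]
      push_cast
      ring
  rw [show 3 * n + 5 = 3 * n + 2 + 1 + 1 + 1 by ring, sum_range_succ, sum_range_succ,
    sum_range_succ, h n le_rfl]
  rw [fT_a, fT_b, fT_c]
  ring

theorem copT (n : ℕ) :
    IsCoprime (∑ i ∈ range (3 * n + 5), fT n i) ((4 * (3 * n + 5) + 1 : ℕ) : ℤ) := by
  rw [sumT]
  have h1 : IsCoprime (-2 * (n : ℤ) ^ 2 + (n : ℤ) + 8 : ℤ) (4 * (n : ℤ) + 7 : ℤ) :=
    ⟨8, -(9 - 4 * (n : ℤ)), by ring⟩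
  have h2 : IsCoprime (-2 * (n : ℤ) ^ 2 + (n : ℤ) + 8 : ℤ) (3 : ℤ) := by
    rw [isCoprime_comm, Int.isCoprime_iff_gcd_eq_one]
    have hp : Nat.Coprime 3 (Int.natAbs (-2 * (n : ℤ) ^ 2 + (n : ℤ) + 8)) := by
      rw [Nat.Prime.coprime_iff_not_dvd Nat.prime_three]
      intro hd
      have hd' : (3 : ℤ) ∣ (-2 * (n : ℤ) ^ 2 + n + 8) := by
        exact Int.natCast_dvd.mpr hd
      obtain ⟨c, hc⟩ : ∃ c : ℤ, (n : ℤ) = 3 * c ∨ (n : ℤ) = 3 * c + 1 ∨ (n : ℤ) = 3 * c + 2 :=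
        ⟨(n : ℤ) / 3, by omega⟩
      obtain ⟨d, hd⟩ := hd'
      rcases hc with hc | hc | hc <;> rw [hc] at hd <;> ring_nf at hd <;> omega
    exact hp
  have h3 := h1.mul_right h2
  have e : ((4 * (3 * n + 5) + 1 : ℕ) : ℤ) = (4 * n + 7) * 3 := by push_cast; ring
  rw [e]
  exact h3

theorem coverT (n : ℕ) : Covers (3 * n + 5) (fT n) := by
  have f0 : fT n 0 = 3 * n + 5 := by simpa using fT_0 (n := n) (j := 0) (by omega)
  have fl : fT n (3 * n + 1) = -4 * n - 8 := by rw [fT_1 le_rfl]; ring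
  intro r h1 h2
  push_cast at h2 ⊢
  by_cases e1 : r = 1
  · refine ⟨0, Or.inr (Or.inl ⟨3 * n + 3, by omega, Or.inl ?_⟩)⟩
    rw [show 3 * n + 3 + 1 = 3 * n + 4 by ring, fT_b, fT_c]; omega
  by_cases e2 : r ≤ 2 * n + 4
  · rcases Int.even_or_odd' r with ⟨c, hc | hc⟩
    · by_cases e3 : r ≤ 2 * n
      · obtain ⟨j, hj⟩ : ∃ j : ℕ, r = 2 + 2 * j := ⟨(c - 1).toNat, by omega⟩
        refine ⟨0, Or.inl ⟨3 * j + 2, by omega, Or.inr ?_⟩⟩
        rw [fT_2 (by omega)]; omega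
      by_cases e4 : r = 2 * n + 2
      · refine ⟨0, Or.inr (Or.inl ⟨3 * n + 1, by omega, Or.inl ?_⟩)⟩
        rw [show 3 * n + 1 + 1 = 3 * n + 2 by ring, fl, fT_a]; omega
      · refine ⟨0, Or.inr (Or.inl ⟨3 * n + 2, by omega, Or.inl ?_⟩)⟩
        rw [show 3 * n + 2 + 1 = 3 * n + 3 by ring, fT_a, fT_b]; omega
    · obtain ⟨j, hj⟩ : ∃ j : ℕ, r = 2 * n + 3 - 2 * j := ⟨(n + 1 - c).toNat, by omega⟩
      refine ⟨0, Or.inr (Or.inl ⟨3 * j, by omega, Or.inr ?_⟩)⟩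
      rw [fT_0 (by omega), fT_1 (by omega)]; omega
  by_cases e5 : r ≤ 3 * n + 4
  · obtain ⟨j, hj⟩ : ∃ j : ℕ, r = 3 * n + 4 - j := ⟨(3 * n + 4 - r).toNat, by omega⟩
    refine ⟨0, Or.inr (Or.inl ⟨3 * j + 2, by omega, Or.inl ?_⟩)⟩
    rw [show 3 * j + 2 + 1 = 3 * (j + 1) by ring, fT_0 (by omega), fT_2 (by omega)]
    push_cast; omega
  by_cases e6 : r ≤ 4 * n + 5
  · obtain ⟨j, hj⟩ : ∃ j : ℕ, r = 3 * n + 5 + j := ⟨(r - (3 * n + 5)).toNat, by omega⟩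
    refine ⟨0, Or.inl ⟨3 * j, by omega, Or.inl ?_⟩⟩
    rw [fT_0 (by omega)]; omega
  by_cases e7 : r = 4 * n + 6
  · exact ⟨0, Or.inl ⟨3 * n + 3, by omega, Or.inr (by rw [fT_b]; omega)⟩⟩
  by_cases e8 : r = 4 * n + 7
  · exact ⟨0, Or.inl ⟨3 * n + 4, by omega, Or.inl (by rw [fT_c]; omega)⟩⟩
  by_cases e9 : r ≤ 5 * n + 8
  · obtain ⟨j, hj⟩ : ∃ j : ℕ, r = 5 * n + 8 - j := ⟨(5 * n + 8 - r).toNat, by omega⟩
    refine ⟨0, Or.inl ⟨3 * j + 1, by omega, Or.inr ?_⟩⟩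
    rw [fT_1 (by omega)]; omega
  by_cases e10 : r = 5 * n + 9
  · refine ⟨1, Or.inr (Or.inr (Or.inr ?_))⟩
    change r = -(fT n (3 * n + 4) + fT n 0) + _; rw [fT_c, f0]; omega
  by_cases e11 : r ≤ 6 * n + 9
  · obtain ⟨j, hj⟩ : ∃ j : ℕ, r = 5 * n + 10 + j := ⟨(r - (5 * n + 10)).toNat, by omega⟩
    refine ⟨0, Or.inr (Or.inl ⟨3 * j + 1, by omega, Or.inr ?_⟩)⟩
    rw [show 3 * j + 1 + 1 = 3 * j + 2 by ring, fT_1 (by omega), fT_2 (by omega)]; omega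
  · exact ⟨0, Or.inl ⟨3 * n + 2, by omega, Or.inl (by rw [fT_a]; omega)⟩⟩

end Pool.Agent.X239.CS
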