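import Pool.Agent.X239.CS.Fam

/-! MP_a9ea17_co: all `k > 2`. -/

namespace Pool.Agent.X239.CS

open Finset

/-- A list read as a sequence of integers. -/
def fL (l : List ℤ) (i : ℕ) : ℤ := l.getD i 0

theorem cover3 : Covers 3 (fL [1, 2, 4]) := by
  intro r h1 h2
  push_cast at h2 ⊢
  norm_num at h2
  interval_cases r
  · exact ⟨0, Or.inl ⟨0, by norm_num, Or.inl (by norm_num [fL])⟩⟩
  · exact ⟨0, Or.inl ⟨1, by norm_num, Or.inl (by norm_num [fL])⟩⟩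
  · exact ⟨0, Or.inr (Or.inl ⟨0, by norm_num, Or.inl (by norm_num [fL])⟩)⟩
  · exact ⟨0, Or.inl ⟨2, by norm_num, Or.inl (by norm_num [fL])⟩⟩
  · exact ⟨0, Or.inr (Or.inr (Or.inl (by norm_num [fL])))⟩
  · exact ⟨0, Or.inr (Or.inl ⟨1, by norm_num, Or.inl (by norm_num [fL])⟩)⟩

theorem cover4 : Covers 4 (fL [1, 2, 6, 4]) := by
  intro r h1 h2
  push_cast at h2 ⊢
  norm_num at h2
  interval_cases r
  · exact ⟨0, Or.inl ⟨0, by norm_num, Or.inl (by norm_num [fL])⟩⟩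
  · exact ⟨0, Or.inl ⟨1, by norm_num, Or.inl (by norm_num [fL])⟩⟩
  · exact ⟨0, Or.inr (Or.inl ⟨0, by norm_num, Or.inl (by norm_num [fL])⟩)⟩
  · exact ⟨0, Or.inl ⟨3, by norm_num, Or.inl (by norm_num [fL])⟩⟩
  · exact ⟨0, Or.inr (Or.inr (Or.inl (by norm_num [fL])))⟩
  · exact ⟨0, Or.inl ⟨2, by norm_num, Or.inl (by norm_num [fL])⟩⟩
  · exact ⟨1, Or.inr (Or.inl ⟨2, by norm_num, Or.inr (by norm_num [fL])⟩)⟩
  · exact ⟨0, Or.inr (Or.inl ⟨1, by norm_num, Or.inl (by norm_num [fL])⟩)⟩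

theorem cover6 : Covers 6 (fL [1, 2, 4, 5, 7, 10]) := by
  intro r h1 h2
  push_cast at h2 ⊢
  norm_num at h2
  interval_cases r
  · exact ⟨0, Or.inl ⟨0, by norm_num, Or.inl (by norm_num [fL])⟩⟩
  · exact ⟨0, Or.inl ⟨1, by norm_num, Or.inl (by norm_num [fL])⟩⟩
  · exact ⟨0, Or.inr (Or.inl ⟨0, by norm_num, Or.inl (by norm_num [fL])⟩)⟩
  · exact ⟨0, Or.inl ⟨2, by norm_num, Or.inl (by norm_num [fL])⟩⟩
  · exact ⟨0, Or.inl ⟨3, by norm_num, Or.inl (by norm_num [fL])⟩⟩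
  · exact ⟨0, Or.inr (Or.inl ⟨1, by norm_num, Or.inl (by norm_num [fL])⟩)⟩
  · exact ⟨0, Or.inl ⟨4, by norm_num, Or.inl (by norm_num [fL])⟩⟩
  · exact ⟨1, Or.inr (Or.inl ⟨4, by norm_num, Or.inr (by norm_num [fL])⟩)⟩
  · exact ⟨0, Or.inr (Or.inl ⟨2, by norm_num, Or.inl (by norm_num [fL])⟩)⟩
  · exact ⟨0, Or.inl ⟨5, by norm_num, Or.inl (by norm_num [fL])⟩⟩
  · exact ⟨0, Or.inr (Or.inr (Or.inl (by norm_num [fL])))⟩
  · exact ⟨0, Or.inr (Or.inl ⟨3, by norm_num, Or.inl (by norm_num [fL])⟩)⟩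

theorem main (k : ℕ) (hk : 2 < k) : ∃ x : ℕ → ZMod (4 * k + 1), Solves k x := by
  by_cases h3 : k = 3
  · subst h3
    refine ⟨_, solves_of_covers (by norm_num) cover3 ?_⟩
    rw [Int.isCoprime_iff_gcd_eq_one]; decide
  by_cases h4 : k = 4
  · subst h4
    refine ⟨_, solves_of_covers (by norm_num) cover4 ?_⟩
    rw [Int.isCoprime_iff_gcd_eq_one]; decide
  by_cases h6 : k = 6
  · subst h6
    refine ⟨_, solves_of_covers (by norm_num) cover6 ?_⟩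
    rw [Int.isCoprime_iff_gcd_eq_one]; decide
  by_cases hm : k % 3 = 2
  · obtain ⟨n, rfl⟩ : ∃ n, k = 3 * n + 5 := ⟨(k - 5) / 3, by omega⟩
    exact ⟨_, solves_of_covers hk (coverT n) (copT n)⟩
  by_cases he : k % 2 = 1
  · obtain ⟨n, rfl⟩ : ∃ n, k = 2 * n + 7 := ⟨(k - 7) / 2, by omega⟩
    exact ⟨_, solves_of_covers hk (coverO n) (copO n)⟩
  · obtain ⟨n, rfl⟩ : ∃ n, k = 2 * n + 6 := ⟨(k - 6) / 2, by omega⟩
    exact ⟨_, solves_of_covers hk (coverE n (by omega)) (copE n (by omega))⟩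

end Pool.Agent.X239.CS
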